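import Pool.Agent.GTF.Top
import Pool.Agent.GTW.Stmts
import Pool.Agent.EWH.Stmts

/-!
From the field tower `FTow` to the abstract tower `GTW.Tow`.
-/

set_option autoImplicit false

namespace Pool.Agent.GTF

open Module Pool.Agent.EWG Pool.Agent.ETG

/-! ### The corestriction on `I²/I³` -/

section cor

variable {F K : Type} [Field F] [Field K] [Algebra F K]

/-- the corestriction on `I²/I³` as a function -/
noncomputable def corf (hTRN : EWH.Stmt_TRN) (h2 : EWH.Two F) (E : QD F K) (b : EWH.BQ K) :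
    EWH.BQ F :=
  EWH.cl ⟨EWH.tr E (EWH.cl_surj b).choose, (hTRN F K h2 E 2).1 _ (EWH.cl_surj b).choose.2⟩

theorem corf_cl (hTRN : EWH.Stmt_TRN) (h2 : EWH.Two F) (E : QD F K)
    (c : ↥((EWH.I K) ^ 2)) : corf hTRN h2 E (EWH.cl c) =
      EWH.cl ⟨EWH.tr E c, (hTRN F K h2 E 2).1 _ c.2⟩ := by
  unfold corf
  rw [EWH.cl_eq_iff]
  show EWH.tr E ((EWH.cl_surj (EWH.cl c)).choose : EWH.W K) - EWH.tr E (c : EWH.W K) ∈ _
  rw [← map_sub]
  apply (hTRN F K h2 E 3).1
  rw [← EWH.cl_eq_iff]
  exact (EWH.cl_surj (EWH.cl c)).choose_spec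

/-- the corestriction on `I²/I³` -/
noncomputable def cor (hTRN : EWH.Stmt_TRN) (h2 : EWH.Two F) (E : QD F K) :
    EWH.BQ K →ₗ[ZMod 2] EWH.BQ F :=
  AddMonoidHom.toZModLinearMap 2
    { toFun := corf hTRN h2 E
      map_zero' := by
        rw [← EWH.cl_zero, corf_cl, ← EWH.cl_zero, EWH.cl_eq_iff]
        show EWH.tr E ((0 : ↥((EWH.I K) ^ 2)) : EWH.W K) - ((0 : ↥((EWH.I F) ^ 2)) : EWH.W F) ∈ _
        rw [ZeroMemClass.coe_zero, ZeroMemClass.coe_zero, map_zero, sub_zero]
        exact Ideal.zero_mem _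
      map_add' := by
        intro a b
        obtain ⟨c, rfl⟩ := EWH.cl_surj a
        obtain ⟨d, rfl⟩ := EWH.cl_surj b
        rw [← EWH.cl_add, corf_cl, corf_cl, corf_cl, ← EWH.cl_add, EWH.cl_eq_iff]
        show EWH.tr E ((c + d : ↥((EWH.I K) ^ 2)) : EWH.W K) -
          (EWH.tr E (c : EWH.W K) + EWH.tr E (d : EWH.W K)) ∈ _
        rw [Submodule.coe_add, map_add, sub_self]
        exact Ideal.zero_mem _ }

theorem cor_sy (hTRN : EWH.Stmt_TRN) (hTPF : EWH.Stmt_TPF) (h2 : EWH.Two F) (E : QD F K)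
    (w : Kˣ) (a : Fˣ) : cor hTRN h2 E (EWH.sy w (iu F a)) = EWH.sy (E.nm w) a := by
  show corf hTRN h2 E (EWH.cl _) = EWH.cl _
  rw [corf_cl, EWH.cl_eq_iff]
  show EWH.tr E (EWH.pf w (iu F a)) - EWH.pf (E.nm w) a ∈ _
  rw [EWH.pf_comm w, EWH.pf_comm (E.nm w)]
  exact hTPF F K h2 E a w

end cor

/-! ### The norm on square classes -/

section norm

variable {F K : Type} [Field F] [Field K] [Algebra F K]

/-- the norm on square classes -/
noncomputable def nn (E : QD F K) : VV K →ₗ[ZMod 2] VV F :=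
  AddMonoidHom.toZModLinearMap 2
    { toFun := fun v => Quotient.liftOn' (Additive.toMul v : Kˣ ⧸ (powMonoidHom 2 : Kˣ →* Kˣ).range)
        (fun a => (vm (E.nm a) : VV F)) (by
          intro a b h
          rw [QuotientGroup.leftRel_apply] at h
          obtain ⟨c, hc⟩ := h
          rw [vm_eq_iff]
          have hc' : c ^ 2 = a⁻¹ * b := hc
          refine ⟨E.nm (a * c), ?_⟩
          have h2 : b = a * (c * c) := by rw [← pow_two, hc']; group
          have h3 : a * b = a * c * (a * c) := by rw [h2, mul_mul_mul_comm, mul_assoc]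
          rw [← map_mul, ← map_mul, h3])
      map_zero' := by
        show vm (E.nm 1) = 0
        rw [map_one, vm_one]
      map_add' := by
        intro v w
        obtain ⟨a, rfl⟩ := vm_surj v
        obtain ⟨b, rfl⟩ := vm_surj w
        rw [← vm_mul]
        show (vm (E.nm (a * b)) : VV F) = vm (E.nm a) + vm (E.nm b)
        rw [map_mul, vm_mul] }

@[simp] theorem nn_vm (E : QD F K) (a : Kˣ) : nn E (vm a) = vm (E.nm a) := rfl

end norm

/-- a class of units from a square class -/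
noncomputable def rep {K : Type} [Field K] (x : VV K) : Kˣ := (vm_surj x).choose

theorem rep_spec {K : Type} [Field K] (x : VV K) : vm (rep x) = x := (vm_surj x).choose_spec

/-! ### The abstract tower -/

theorem zf_iff' (hCMP : EWH.Stmt_CMP) {K : Type} [Field K] (hK : Good K)
    {q : VV K →ₗ[ZMod 2] VV K →ₗ[ZMod 2] EWH.BQ K}
    (hq : ∀ a b : Kˣ, q (vm a) (vm b) = 0 ↔ EWH.pf a b = 0) (v w : VV K) :
    Zf K v w ↔ q v w = 0 := by
  obtain ⟨a, rfl⟩ := vm_surj v
  obtain ⟨b, rfl⟩ := vm_surj w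
  rw [hq, ← (hCMP K hK a b a b).2]
  constructor
  · intro h
    exact h a b rfl rfl
  · intro h a' b' ha hb
    rw [(hCMP K hK a' b' a b).2, ← hq, ha, hb, hq, ← (hCMP K hK a b a b).2]
    exact h

theorem tlv_of (hQBL : EWH.Stmt_QBL) (hVKR : EWH.Stmt_VKR) (hKRS : EWH.Stmt_KRS)
    (hTRN : EWH.Stmt_TRN) (hTPF : EWH.Stmt_TPF) (hCMP : EWH.Stmt_CMP) (hTWR : GTW.Stmt_TWR) :
    Stmt_TLV := by
  intro F _ T
  have h2 : ∀ n, EWH.Two (T.K n) := fun n => (T.good n).two
  have hQ := fun n => hQBL (T.K n) (h2 n)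
  choose q q1 q2 q3 q4 q5 q6 q7 using hQ
  have hm1 : ∀ n, vm (-1 : (T.K n)ˣ) = 0 := by
    intro n
    obtain ⟨i, hi⟩ := (T.good n).neg
    rw [vm_eq_zero]
    have hi0 : i ≠ 0 := by
      rintro rfl
      rw [zero_pow two_ne_zero] at hi
      exact one_ne_zero (neg_eq_zero.1 hi.symm)
    refine ⟨Units.mk0 i hi0, ?_⟩
    ext
    show (-1 : T.K n) = i * i
    rw [← hi, pow_two]
  have hdir : ∀ n (v w : VV (T.K n)), Zf (T.K n) v w ↔ q n v w = 0 := fun n v w =>
    zf_iff' hCMP (T.good n) (q5 n) v w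
  let T' : GTW.Tow :=
    { V := fun n => VV (T.K n)
      B := fun n => EWH.BQ (T.K n)
      vA := fun n => inferInstance
      vM := fun n => inferInstance
      bA := fun n => inferInstance
      bM := fun n => inferInstance
      fin := T.fin
      q := q
      x := fun n => vm (T.E n).x
      res := fun n => rv (T.K n) (T.K (n + 1))
      N := fun n => nn (T.E n)
      cor := fun n => cor hTRN (h2 n) (T.E n)
      D := T.D
      link := fun n => ⟨q2 n, fun a => by rw [q3 n, hm1], q6 n⟩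
      Nx := fun n => T.norm n
      Nres := by
        intro n v
        obtain ⟨a, rfl⟩ := vm_surj v
        rw [rv_vm, nn_vm, vm_eq_zero, (hVKR (T.K n) (T.K (n + 1)) (h2 n) (T.E n)).1]
        exact ⟨a, iu (T.K n) a, rfl⟩
      rN := by
        intro n v
        obtain ⟨a, rfl⟩ := vm_surj v
        rw [q5 n, (hVKR (T.K n) (T.K (n + 1)) (h2 n) (T.E n)).2.2]
        constructor
        · rintro ⟨w, hw⟩
          exact ⟨vm w, by rw [nn_vm, hw]⟩
        · rintro ⟨w, hw⟩
          obtain ⟨b, rfl⟩ := vm_surj w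
          rw [nn_vm] at hw
          rw [← (hVKR (T.K n) (T.K (n + 1)) (h2 n) (T.E n)).2.2, ← q5 n, ← hw, q5 n,
            (hVKR (T.K n) (T.K (n + 1)) (h2 n) (T.E n)).2.2]
          exact ⟨b, rfl⟩
      proj := by
        intro n w v
        obtain ⟨a, rfl⟩ := vm_surj v
        obtain ⟨b, rfl⟩ := vm_surj w
        rw [rv_vm, nn_vm, q1, q1]
        exact cor_sy hTRN hTPF (h2 n) (T.E n) b a
      ker3 := by
        intro n v u
        obtain ⟨a, rfl⟩ := vm_surj v
        obtain ⟨b, rfl⟩ := vm_surj u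
        rw [rv_vm, rv_vm, q5 (n + 1), hKRS (T.K n) (T.K (n + 1)) (h2 n) (T.E n)]
        constructor
        · rintro ⟨c, hc⟩
          exact ⟨vm c, (q4 n _ _ _ _).2 hc.symm⟩
        · rintro ⟨z, hz⟩
          obtain ⟨c, rfl⟩ := vm_surj z
          exact ⟨c, ((q4 n _ _ _ _).1 hz).symm⟩
      bd := by
        intro n v
        have hf := T.fin n
        have e1 := LinearMap.finrank_range_add_finrank_ker (q n v)
        have e2 := T.rank n v
        have e3 : Nat.card {w // Zf (T.K n) v w} =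
            2 ^ finrank (ZMod 2) (LinearMap.ker (q n v)) := by
          have e4 : Nat.card {w // Zf (T.K n) v w} = Nat.card (LinearMap.ker (q n v)) :=
            Nat.card_congr (Equiv.subtypeEquivRight fun w => by
              rw [hdir, LinearMap.mem_ker])
          rw [e4, Module.natCard_eq_pow_finrank (K := ZMod 2), Nat.card_zmod]
        have e5 : Nat.card (VV (T.K n)) = 2 ^ finrank (ZMod 2) (VV (T.K n)) := by
          rw [Module.natCard_eq_pow_finrank (K := ZMod 2), Nat.card_zmod]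
        rw [e3, e5, ← pow_add] at e2
        have e6 := (Nat.pow_le_pow_iff_right (by norm_num)).1 e2
        show finrank (ZMod 2) (LinearMap.range (q n v)) ≤ T.D
        omega }
  obtain ⟨n, k, C, hC⟩ := hTWR T'
  refine ⟨n, k, ?_⟩
  have hfun : Zf (T.K n) = fun v w => q n v w = 0 := by
    funext v w
    exact propext (hdir n v w)
  rw [hfun]
  exact ⟨C, hC⟩

end Pool.Agent.GTF
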