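import Pool.Agent.GTF.Nrm

/-!
The generic tower exists (`Stmt_FTOW`).
-/

set_option autoImplicit false

namespace Pool.Agent.GTF

open Module Pool.Agent.EWG Pool.Agent.ETG Pool.Agent.ETT Pool.Agent.ETT.QSY_

section gal

variable {F Om : Type} [Field F] [Field Om] [Algebra F Om]

theorem ku_mono (hGFX : Stmt_GFX) (hStd : Std F Om) {U W : Subgroup (Om ≃ₐ[F] Om)} (h : W ≤ U) :
    KU F Om U ≤ KU F Om W := by
  obtain ⟨-, g2, -, -⟩ := hGFX F Om hStd
  intro x hx
  rw [g2] at hx ⊢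
  exact fun g hg => hx g (h hg)

/-- rank bound from the count of square classes -/
theorem rank_bd (hREL : Stmt_REL) (hECN : Stmt_ECN) (hKU1 : Stmt_KU1) (hQDX : Stmt_QDX)
    (hStd : Std F Om)
    (hG : ∀ U ∈ admT (Om ≃ₐ[F] Om), Good (KU F Om U))
    (hF : ∀ U ∈ admT (Om ≃ₐ[F] Om), Finite (VV (KU F Om U)))
    (U : Subgroup (Om ≃ₐ[F] Om)) (hU : U ∈ admT (Om ≃ₐ[F] Om)) (D : ℕ)
    (hD : ∀ W ∈ admT (Om ≃ₐ[F] Om), W ≤ U → W.relIndex U = 2 →
      2 * finrank (ZMod 2) (VV (KU F Om U)) ≤ finrank (ZMod 2) (VV (KU F Om W)) + 1 + D)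
    (v : VV (KU F Om U)) :
    Nat.card (VV (KU F Om U)) ≤ 2 ^ D * Nat.card {w // Zf (KU F Om U) v w} := by
  have hGU := hG U hU
  have hFU := hF U hU
  by_cases hv : v = 0
  · subst hv
    have h1 : Nat.card {w // Zf (KU F Om U) 0 w} = Nat.card (VV (KU F Om U)) :=
      Nat.card_congr (Equiv.subtypeUnivEquiv fun w => zf_zero hREL hGU w)
    rw [h1]
    exact Nat.le_mul_of_pos_left _ (by positivity)
  · obtain ⟨h1, h2, h3⟩ := kr_spec hKU1 hStd U hU v hv
    obtain ⟨hA, E, hE⟩ := kr_ext hKU1 hQDX hStd U hU v hv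
    have h4 := hECN (KU F Om U) (KU F Om (kr hStd.sq U v)) hGU hFU E
    have h5 := card_split hREL hGU hFU E.x
    rw [hE] at h5
    have hFW := hF _ h1
    have h6 := hD _ h1 h2 h3
    have e1 := card_pw hFU
    have e2 := card_pw hFW
    set d := finrank (ZMod 2) (VV (KU F Om U)) with hd
    set d' := finrank (ZMod 2) (VV (KU F Om (kr hStd.sq U v))) with hd'
    set r := Nat.card (Set.range fun w : (KU F Om U)ˣ => pf E.x w) with hr
    set z := Nat.card {w // Zf (KU F Om U) v w} with hz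
    rw [e1, e2] at h4
    rw [e1] at h5
    rw [e1]
    have h7 : r ≤ 2 ^ D := by
      have h8 : 2 ^ (2 * d) ≤ 2 ^ (d' + 1 + D) := Nat.pow_le_pow_right (by norm_num) h6
      have h9 : 2 ^ (d' + 1) * r = 2 ^ (2 * d) := by
        rw [pow_succ, pow_mul', ← h4]
        ring
      have h10 : 2 ^ (d' + 1) * r ≤ 2 ^ (d' + 1) * 2 ^ D := by
        rw [h9, ← pow_add]
        exact h8
      exact Nat.le_of_mul_le_mul_left h10 (by positivity)
    rw [h5]
    exact Nat.mul_le_mul_right z h7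

end gal

theorem ftow_proof (hREL : Stmt_REL) (hECN : Stmt_ECN) (hADB : Stmt_ADB) (hIND : Stmt_IND)
    (hGFX : Stmt_GFX) (hKU1 : Stmt_KU1) (hKU2 : Stmt_KU2) (hKU3 : Stmt_KU3) (hQDX : Stmt_QDX)
    (hVFU : Stmt_VFU) (hFSV : Stmt_FSV) (hSTD : Stmt_STD) (hSYS : Stmt_SYS) (hEXP : Stmt_EXP)
    (hIWG : Stmt_IWG) : Stmt_FTOW := by
  intro F _ hG hV hx
  set Om := SeparableClosure F
  have hStd : Std F Om := hSTD F hG hV
  obtain ⟨S, hadm, -⟩ := hSYS F Om hStd
  obtain ⟨htop, _, hup, _, hcore, _⟩ := hADB (Om ≃ₐ[F] Om)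
  obtain ⟨g1, g2, -, -⟩ := hGFX F Om hStd
  have hGood : ∀ U ∈ admT (Om ≃ₐ[F] Om), Good (KU F Om U) := fun U _ =>
    Good.map (algebraMap F (KU F Om U)) hG
  have hFin : ∀ U ∈ admT (Om ≃ₐ[F] Om), Finite (VV (KU F Om U)) := fun U hU =>
    (hFSV F Om).2 (KU F Om U) (hVFU F Om hStd U hU)
  -- a proper admissible subgroup
  have hne : ∃ W ∈ S.adm, W ≠ ⊤ := by
    obtain ⟨v, hv⟩ := hx
    obtain ⟨a, rfl⟩ := vm_surj v
    obtain ⟨t, ht⟩ := hStd.sq (algebraMap F Om a)
    have ht1 : t ∉ KU F Om ⊤ := by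
      intro h
      obtain ⟨c, rfl⟩ := (g1 t).1 h
      apply hv
      rw [vm_eq_zero]
      have h1 : c ^ 2 = (a : F) := by
        apply (algebraMap F Om).injective
        rw [map_pow, ht]
      have hc0 : c ≠ 0 := by
        rintro rfl
        apply a.ne_zero
        rw [← h1]
        ring
      refine ⟨Units.mk0 c hc0, ?_⟩
      ext
      rw [← h1, pow_two]
      rfl
    have ht2 : t ^ 2 ∈ KU F Om ⊤ := by
      rw [ht]
      exact (g1 _).2 ⟨_, rfl⟩
    obtain ⟨W, hW, -, hW2, -⟩ := hKU1 F Om hStd ⊤ htop t ht1 ht2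
    refine ⟨W, by rw [hadm]; exact hW, ?_⟩
    rintro rfl
    rw [Subgroup.relIndex_self] at hW2
    omega
  obtain ⟨R, _, _, rho, hA, hE⟩ := hEXP (Om ≃ₐ[F] Om) S
  obtain ⟨beta, hlow, U, hU, chi, hc, hg, C, hW⟩ := hIWG (Om ≃ₐ[F] Om) S R rho hA hne
  choose W hWa hWs hWb using hW
  rw [hadm] at hE hlow hU hWa
  have hbb : ∀ U ∈ admT (Om ≃ₐ[F] Om), bb rho U + 1 =
      finrank (ZMod 2) (VV (KU F Om U)) + U.index :=
    fun U hU => hE U hU _ (count_adm hKU1 hKU2 hKU3 hStd U hU (hFin U hU))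
  have hstep : ∀ j, W (j + 1) ≤ W j ∧ (W (j + 1)).relIndex (W j) = 2 := fun j =>
    TOT_.relidx S.cyc S.cyc4 U chi hc hg j (W j) (W (j + 1)) (hWs j) (hWs (j + 1))
  have hrk : ∀ (j : ℕ) (v : VV (KU F Om (W j))), Nat.card (VV (KU F Om (W j))) ≤
      2 ^ (2 * C) * Nat.card {w // Zf (KU F Om (W j)) v w} := by
    intro j v
    refine rank_bd hREL hECN hKU1 hQDX hStd hGood hFin (W j) (hWa j) (2 * C) ?_ v
    intro W' hW' hle hrel
    have e1 := hbb _ hW'
    have e2 := hbb _ (hWa j)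
    have e3 := hlow _ hW'
    have e4 := hWb j
    have hidx : W'.index = 2 * (W j).index := by
      rw [← Subgroup.relIndex_mul_index hle, hrel]
    rw [hidx] at e1 e3
    have e6 : beta * (2 * (W j).index) = 2 * (beta * (W j).index) := by ring
    rw [e6] at e3
    omega
  -- the generators
  have hgen : ∀ j, ∃ t : Om, t ∉ KU F Om (W j) ∧ t ^ 2 ∈ KU F Om (W j) ∧
      (W (j + 1) : Set (Om ≃ₐ[F] Om)) = {g | g ∈ W j ∧ g t = t} := fun j =>
    hKU2 F Om hStd (W j) (hWa j) (W (j + 1)) (hWa (j + 1)) (hstep j).1 (hstep j).2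
  choose t ht1 ht2 ht3 using hgen
  have hmono : ∀ j, KU F Om (W j) ≤ KU F Om (W (j + 1)) := fun j => ku_mono hGFX hStd (hstep j).1
  let iA : ∀ n, Algebra (KU F Om (W (n + 1))) (KU F Om (W (n + 1 + 1))) :=
    fun n => (IntermediateField.inclusion (hmono (n + 1))).toRingHom.toAlgebra
  have hmap : ∀ n (a : KU F Om (W (n + 1))),
      ((algebraMap (KU F Om (W (n + 1))) (KU F Om (W (n + 1 + 1))) a : KU F Om (W (n + 1 + 1))) :
        Om) = a := fun n a => rfl
  have hQ : ∀ n, ∃ E : QD (KU F Om (W (n + 1))) (KU F Om (W (n + 1 + 1))),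
      (((E.x : (KU F Om (W (n + 1)))ˣ) : KU F Om (W (n + 1))) : Om) = t (n + 1) ^ 2 := by
    intro n
    obtain ⟨-, -, hz, -⟩ := hKU3 F Om hStd (W (n + 1)) (hWa _) (W (n + 1 + 1)) (hWa _)
      (hstep _).1 (hstep _).2 (t (n + 1)) (ht1 _) (ht2 _) (ht3 _)
    exact qd_incl (hmap n) (t (n + 1)) (ht1 _) (ht2 _) hz
  choose E hEx using hQ
  have hnorm : ∀ n, vm ((E n).nm (E (n + 1)).x) = vm (E n).x := by
    intro n
    exact norm_next hGFX hKU3 hStd S.cyc S.cyc4 U chi hc (n + 1) (W (n + 1)) (W (n + 1 + 1))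
      (W (n + 1 + 1 + 1)) (hWa _) (hWa _) (hWa _) (hWs _) (hWs _) (hWs _) (hstep _).1 (hstep _).2
      (hstep _).1 (hstep _).2 (t (n + 1)) (t (n + 1 + 1)) (ht1 _) (ht2 _) (ht3 _) (ht1 _) (ht2 _)
      (ht3 _) (hmap n) (E n) (hEx n) (E (n + 1)).x (hEx (n + 1))
  -- descent to `F`
  have hdesc : ∀ P : (K : Type) → [Field K] → Prop, Desc P → P (KU F Om (W 1)) → P F := by
    intro P hP h1
    have hw1 : W 1 ≠ ⊤ := by
      intro h
      have h2 := (hstep 0).2
      have h3 := (hstep 0).1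
      rw [h, top_le_iff] at h3
      rw [h, h3, Subgroup.relIndex_self] at h2
      omega
    have key := (hIND (Om ≃ₐ[F] Om) (admT (Om ≃ₐ[F] Om)) hup (by
      intro U hU
      obtain ⟨N, _, h1, h2, h3⟩ := hcore U hU
      exact ⟨N, h1, h2, h3⟩)
      (fun U => (U = ⊤ → P F) ∧ (U ≠ ⊤ → P (KU F Om U)))).2 (by
      intro U hU W' hW' hle hrel hPW
      have hW't : W' ≠ ⊤ := by
        intro h
        rw [h, top_le_iff] at hle
        rw [h, hle, Subgroup.relIndex_self] at hrel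
        omega
      have hPW' := hPW.2 hW't
      obtain ⟨s, hs1, hs2, hs3⟩ := hKU2 F Om hStd U hU W' hW' hle hrel
      refine ⟨?_, ?_⟩
      · intro hUt
        obtain ⟨-, -, hz, -⟩ := hKU3 F Om hStd U hU W' hW' hle hrel s hs1 hs2 hs3
        rw [hUt] at hs1 hs2 hz
        obtain ⟨x, hx⟩ := (g1 _).1 hs2
        have hsW : s ∈ KU F Om W' :=
          (hz s).2 ⟨0, (KU F Om ⊤).zero_mem, 1, (KU F Om ⊤).one_mem, by
            rw [one_mul, zero_add]⟩
        obtain ⟨E', -⟩ := QDX_.qd_of (F := F) (K := KU F Om W') ⟨s, hsW⟩ x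
          (by
            apply Subtype.ext
            show s ^ 2 = algebraMap F Om x
            rw [hx])
          (by
            intro a ha
            apply hs1
            have h5 : algebraMap F Om a = s := congrArg (fun y : KU F Om W' => (y : Om)) ha
            rw [← h5]
            exact (g1 _).2 ⟨a, rfl⟩)
          (by
            intro z
            obtain ⟨a, ha, b, hb, h⟩ := (hz z).1 z.2
            obtain ⟨a', rfl⟩ := (g1 a).1 ha
            obtain ⟨b', rfl⟩ := (g1 b).1 hb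
            refine ⟨a', b', ?_⟩
            apply Subtype.ext
            rw [h]
            rfl)
        exact hP F (KU F Om W') hG hV E' hPW'
      · intro _
        obtain ⟨_, E', -⟩ := hQDX F Om hStd U hU W' hW' hle hrel s hs1 hs2 hs3
        exact hP (KU F Om U) (KU F Om W') (hGood U hU) (hFin U hU) E' hPW') (W 1) (hWa 1)
      ⟨fun h => absurd h hw1, fun _ => h1⟩
    exact key.1 rfl
  exact ⟨{
    K := fun n => KU F Om (W (n + 1))
    fld := fun n => inferInstance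
    alg := iA
    good := fun n => hGood _ (hWa _)
    fin := fun n => hFin _ (hWa _)
    E := E
    norm := hnorm
    D := 2 * C
    rank := fun n v => hrk (n + 1) v
    desc := hdesc }⟩

end Pool.Agent.GTF
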