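import Pool.Agent.ETG.Iface

/-!
The generic tower over a field in which `-1` is a square (field side, general `Iⁿ`),
problem MP_d26ff6_al: the output of the Galois side.
-/

set_option autoImplicit false

namespace Pool.Agent.GTF

open Pool.Agent.EWG Pool.Agent.ETG

/-- the property `P` goes down quadratic steps -/
def Desc (P : (K : Type) → [Field K] → Prop) : Prop :=
  ∀ (F K : Type) [Field F] [Field K] [Algebra F K], Good F → Finite (VV F) → QD F K → P K → P F

/-- A tower `K 0 < K 1 < ...` of quadratic extensions `K (n+1) = K n (√x_n)` above `F` with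
`N x_{n+1} = x_n` (square classes) and bounded ranks: for every `v` in `K n*/K n*²` the group
`{w : (v, w) = 0}` has index at most `2 ^ D`. `F` and `K 0` are connected by finitely many
quadratic extensions (`desc`). -/
structure FTow (F : Type) [Field F] where
  K : ℕ → Type
  [fld : ∀ n, Field (K n)]
  [alg : ∀ n, Algebra (K n) (K (n + 1))]
  good : ∀ n, Good (K n)
  fin : ∀ n, Finite (VV (K n))
  E : ∀ n, QD (K n) (K (n + 1))
  norm : ∀ n, vm ((E n).nm (E (n + 1)).x) = vm (E n).x
  D : ℕ
  rank : ∀ n (v : VV (K n)), Nat.card (VV (K n)) ≤ 2 ^ D * Nat.card {w // Zf (K n) v w}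
  desc : ∀ P : (K : Type) → [Field K] → Prop, Desc P → P (K 0) → P F

attribute [instance] FTow.fld FTow.alg

/-- the generic tower exists -/
def Stmt_FTOW : Prop := ∀ (F : Type) [Field F], Good F → Finite (VV F) → (∃ v : VV F, v ≠ 0) →
  Nonempty (FTow F)

/-- TOP: what remains for `Stmt_TOW`: one level of every such tower has a decomposition into
local components and components with a rigid element. -/
def Stmt_TLV : Prop := ∀ (F : Type) [Field F] (T : FTow F),
  ∃ n, ∃ (k : ℕ) (C : ZDec (Zf (T.K n)) k), C.OS

end Pool.Agent.GTF
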