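import Pool.Agent.GTF.Top
import Pool.Agent.ETT.QSY
import Pool.Agent.EWG.NPR
import Pool.Agent.ETT.QDX
import Pool.Agent.ETT.TOT

/-!
Kummer theory of the fields `K_U` (square classes and subgroups of index 2), counting.
-/

set_option autoImplicit false

namespace Pool.Agent.GTF

open Module Pool.Agent.EWG Pool.Agent.ETG Pool.Agent.ETT Pool.Agent.ETT.QSY_

section one

variable {K : Type} [Field K]

theorem pf_congr (hREL : Stmt_REL) (hK : Good K) {a a' b b' : Kˣ} (ha : vm a = vm a')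
    (hb : vm b = vm b') : pf a b = pf a' b' := by
  have h1 : br a = br a' := ((hREL K hK).1 a a').2 ((vm_eq_iff a a').1 ha)
  have h2 : br b = br b' := ((hREL K hK).1 b b').2 ((vm_eq_iff b b').1 hb)
  unfold pf pf1
  rw [h1, h2]

theorem zf_iff (hREL : Stmt_REL) (hK : Good K) (a b : Kˣ) : Zf K (vm a) (vm b) ↔ pf a b = 0 := by
  constructor
  · intro h
    exact h a b rfl rfl
  · intro h a' b' ha hb
    rw [← h]
    exact pf_congr hREL hK ha hb

theorem pf_zero_iff {a b : Kˣ} : pf a b = 0 ↔ pf1 a * br b = pf1 a := by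
  constructor
  · exact NPR_.mul_eq_of_pf
  · intro h
    unfold pf
    rw [show pf1 b = 1 + br b from rfl, mul_add, mul_one, h, add_self']

theorem br_mul_self (hREL : Stmt_REL) (hK : Good K) (a : Kˣ) : br a * br a = 1 := by
  rw [← br_mul, ← br_one]
  exact ((hREL K hK).1 (a * a) 1).2 ⟨a, by rw [mul_one]⟩

/-- the group `{w : (x, w) = 0}` -/
def HH (hREL : Stmt_REL) (hK : Good K) (a : Kˣ) : AddSubgroup (VV K) where
  carrier := {w | Zf K (vm a) w}
  zero_mem' := by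
    show Zf K (vm a) (vm (1 : Kˣ))
    rw [zf_iff hREL hK, pf_zero_iff, br_one, mul_one]
  add_mem' := by
    intro v w hv hw
    obtain ⟨b, rfl⟩ := vm_surj v
    obtain ⟨c, rfl⟩ := vm_surj w
    have h1 : pf1 a * br b = pf1 a := pf_zero_iff.1 ((zf_iff hREL hK a b).1 hv)
    have h2 : pf1 a * br c = pf1 a := pf_zero_iff.1 ((zf_iff hREL hK a c).1 hw)
    show Zf K (vm a) (vm b + vm c)
    rw [← vm_mul, zf_iff hREL hK, pf_zero_iff, br_mul, ← mul_assoc, h1, h2]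
  neg_mem' := by
    intro v hv
    have h : -v = v := by rw [neg_eq_iff_add_eq_zero]; exact vm_add_self v
    show Zf K (vm a) (-v)
    rw [h]
    exact hv

theorem pf_eq_iff (hREL : Stmt_REL) (hK : Good K) (a b c : Kˣ) :
    pf a b = pf a c ↔ Zf K (vm a) (vm b + vm c) := by
  have e : ∀ d : Kˣ, pf a d = pf1 a + pf1 a * br d := by
    intro d
    unfold pf
    conv_lhs => rw [show pf1 d = 1 + br d from rfl]
    ring
  rw [← vm_mul, zf_iff hREL hK, pf_zero_iff, br_mul, e b, e c, add_right_inj]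
  constructor
  · intro h
    rw [← mul_assoc, h, mul_assoc, br_mul_self hREL hK, mul_one]
  · intro h
    have h1 : pf1 a * (br b * br c) * br c = pf1 a * br c := congrArg (fun z => z * br c) h
    rw [mul_assoc, mul_assoc, br_mul_self hREL hK, mul_one] at h1
    exact h1

theorem card_split (hREL : Stmt_REL) (hK : Good K) (_hf : Finite (VV K)) (a : Kˣ) :
    Nat.card (VV K) = Nat.card (Set.range fun v : Kˣ => pf a v) *
      Nat.card {w // Zf K (vm a) w} := by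
  have h1 := AddSubgroup.card_eq_card_quotient_mul_card_addSubgroup (HH hREL hK a)
  have h2 : Nat.card (HH hREL hK a) = Nat.card {w // Zf K (vm a) w} := rfl
  rw [h1, h2]
  congr 1
  refine Nat.card_congr (Equiv.ofBijective (fun z : VV K ⧸ HH hREL hK a =>
    (⟨Quotient.liftOn' z (fun v => pf a (rp v)) ?_, ?_⟩ : Set.range fun v : Kˣ => pf a v)) ⟨?_, ?_⟩)
  · intro v w hvw
    have h3 : -v + w ∈ HH hREL hK a := QuotientAddGroup.leftRel_apply.1 hvw
    have h4 : -v = v := by rw [neg_eq_iff_add_eq_zero]; exact vm_add_self v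
    rw [h4] at h3
    rw [pf_eq_iff hREL hK, rp_spec, rp_spec]
    exact h3
  · induction z using Quotient.inductionOn' with
    | h v => exact ⟨rp v, rfl⟩
  · intro z z' hz
    induction z using Quotient.inductionOn' with
    | h v =>
      induction z' using Quotient.inductionOn' with
      | h w =>
        have h5 : pf a (rp v) = pf a (rp w) := congrArg Subtype.val hz
        rw [pf_eq_iff hREL hK, rp_spec, rp_spec] at h5
        apply Quotient.sound'
        rw [QuotientAddGroup.leftRel_apply]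
        have h4 : -v = v := by rw [neg_eq_iff_add_eq_zero]; exact vm_add_self v
        rw [h4]
        exact h5
  · rintro ⟨_, v, rfl⟩
    refine ⟨Quotient.mk'' (vm v), ?_⟩
    apply Subtype.ext
    show pf a (rp (vm v)) = pf a v
    exact pf_congr hREL hK rfl (rp_spec _)

theorem card_pw (hf : Finite (VV K)) : Nat.card (VV K) = 2 ^ finrank (ZMod 2) (VV K) := card_pow _

end one

section gal

variable {F Om : Type} [Field F] [Field Om] [Algebra F Om]

theorem kr_spec (hKU1 : Stmt_KU1) (hStd : Std F Om) (U : Subgroup (Om ≃ₐ[F] Om))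
    (hU : U ∈ admT (Om ≃ₐ[F] Om)) (x : VV (KU F Om U)) (hx : x ≠ 0) :
    kr hStd.sq U x ∈ admT (Om ≃ₐ[F] Om) ∧ kr hStd.sq U x ≤ U ∧
      (kr hStd.sq U x).relIndex U = 2 := by
  obtain ⟨W, hW, hWU, hW2, hWs⟩ := hKU1 F Om hStd U hU (rt hStd.sq U x)
    (rt_notMem hStd.sq U x hx) (rt_sq_mem hStd.sq U x)
  have h : kr hStd.sq U x = W := by
    apply SetLike.coe_injective
    rw [kr_set, hWs]
  rw [h]
  exact ⟨hW, hWU, hW2⟩

theorem kr_ext (hKU1 : Stmt_KU1) (hQDX : Stmt_QDX) (hStd : Std F Om) (U : Subgroup (Om ≃ₐ[F] Om))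
    (hU : U ∈ admT (Om ≃ₐ[F] Om)) (x : VV (KU F Om U)) (hx : x ≠ 0) :
    ∃ (_ : Algebra (KU F Om U) (KU F Om (kr hStd.sq U x)))
        (E : QD (KU F Om U) (KU F Om (kr hStd.sq U x))), vm E.x = x := by
  obtain ⟨h1, h2, h3⟩ := kr_spec hKU1 hStd U hU x hx
  obtain ⟨hA, E, hE⟩ := hQDX F Om hStd U hU (kr hStd.sq U x) h1 h2 h3 (rt hStd.sq U x)
    (rt_notMem hStd.sq U x hx) (rt_sq_mem hStd.sq U x) (kr_set hStd.sq U x)
  refine ⟨hA, E, ?_⟩
  have h4 : E.x = rp x := by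
    apply Units.ext
    apply Subtype.ext
    rw [hE, rt_spec]
  rw [h4, rp_spec]

theorem kr_surj (hKU2 : Stmt_KU2) (hKU3 : Stmt_KU3) (hStd : Std F Om)
    (U : Subgroup (Om ≃ₐ[F] Om)) (hU : U ∈ admT (Om ≃ₐ[F] Om)) (W : Subgroup (Om ≃ₐ[F] Om))
    (hW : W ∈ admT (Om ≃ₐ[F] Om)) (hWU : W ≤ U) (hW2 : W.relIndex U = 2) :
    ∃ x : VV (KU F Om U), x ≠ 0 ∧ kr hStd.sq U x = W := by
  have hs := hStd.sq
  obtain ⟨t', ht1, ht2, hWs⟩ := hKU2 F Om hStd U hU W hW hWU hW2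
  have ht0 : t' ≠ 0 := by
    rintro rfl
    exact ht1 (KU F Om U).zero_mem
  have ha0 : (⟨t' ^ 2, ht2⟩ : KU F Om U) ≠ 0 := by
    intro h
    exact pow_ne_zero 2 ht0 (congrArg Subtype.val h)
  set a : (KU F Om U)ˣ := Units.mk0 ⟨t' ^ 2, ht2⟩ ha0 with ha
  have haval : ((a : KU F Om U) : Om) = t' ^ 2 := rfl
  have hx0 : vm a ≠ 0 := by
    intro h
    rw [vm_eq_zero] at h
    obtain ⟨c, hc⟩ := h
    have h1 : t' ^ 2 = ((c : KU F Om U) : Om) ^ 2 := by
      rw [← haval, hc, pow_two]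
      rfl
    rcases sq_eq_sq_iff_eq_or_eq_neg.1 h1 with h2 | h2
    · exact ht1 (h2 ▸ (c : KU F Om U).2)
    · exact ht1 (h2 ▸ (KU F Om U).neg_mem (c : KU F Om U).2)
  refine ⟨vm a, hx0, ?_⟩
  have h1 := rp_spec (vm a)
  rw [vm_eq_iff] at h1
  obtain ⟨d, hd⟩ := h1
  have h2 : (rt hStd.sq U (vm a) * t') ^ 2 = ((d : KU F Om U) : Om) ^ 2 := by
    rw [mul_pow, rt_spec, ← haval]
    have h3 := congrArg (fun z : (KU F Om U)ˣ => ((z : KU F Om U) : Om)) hd
    simp only [Units.val_mul, MulMemClass.coe_mul] at h3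
    rw [h3, pow_two]
  have h4 : ∃ c ∈ KU F Om U, c ≠ 0 ∧ rt hStd.sq U (vm a) = c * t' := by
    have hinv : (t' ^ 2)⁻¹ ∈ KU F Om U := (KU F Om U).inv_mem ht2
    rcases sq_eq_sq_iff_eq_or_eq_neg.1 h2 with h5 | h5
    · refine ⟨((d : KU F Om U) : Om) * (t' ^ 2)⁻¹,
        (KU F Om U).mul_mem (d : KU F Om U).2 hinv, ?_, ?_⟩
      · apply mul_ne_zero
        · intro h
          apply d.ne_zero
          exact Subtype.ext h
        · exact inv_ne_zero (pow_ne_zero 2 ht0)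
      · rw [← h5]
        field_simp
    · refine ⟨-((d : KU F Om U) : Om) * (t' ^ 2)⁻¹,
        (KU F Om U).mul_mem ((KU F Om U).neg_mem (d : KU F Om U).2) hinv, ?_, ?_⟩
      · apply mul_ne_zero
        · intro h
          apply d.ne_zero
          exact Subtype.ext (neg_eq_zero.1 h)
        · exact inv_ne_zero (pow_ne_zero 2 ht0)
      · rw [← h5]
        field_simp
  have h6 := ((hKU3 F Om hStd U hU W hW hWU hW2 t' ht1 ht2 hWs).2.2.2 (rt hStd.sq U (vm a))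
    (rt_ne hStd.sq U _) (rt_sq_mem hStd.sq U _)).2 h4
  apply SetLike.coe_injective
  rw [kr_set, h6]

theorem kr_inj (hKU1 : Stmt_KU1) (hKU3 : Stmt_KU3) (hStd : Std F Om)
    (U : Subgroup (Om ≃ₐ[F] Om)) (hU : U ∈ admT (Om ≃ₐ[F] Om)) (x y : VV (KU F Om U))
    (hx : x ≠ 0) (_hy : y ≠ 0) (hxy : kr hStd.sq U x = kr hStd.sq U y) : x = y := by
  have hs := hStd.sq
  obtain ⟨h1, h2, h3⟩ := kr_spec hKU1 hStd U hU x hx
  have hset : (kr hStd.sq U x : Set (Om ≃ₐ[F] Om)) =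
      {g | g ∈ U ∧ g (rt hStd.sq U y) = rt hStd.sq U y} := by
    rw [hxy, kr_set]
  obtain ⟨c, hc, hc0, hct⟩ := ((hKU3 F Om hStd U hU (kr hStd.sq U x) h1 h2 h3 (rt hStd.sq U x)
    (rt_notMem hStd.sq U x hx) (rt_sq_mem hStd.sq U x) (kr_set hStd.sq U x)).2.2.2
      (rt hStd.sq U y) (rt_ne hStd.sq U _) (rt_sq_mem hStd.sq U _)).1 hset
  have h4 : IsSquare (rp x * rp y) := by
    refine isSq_of _ (c * rt hStd.sq U x ^ 2)
      ((KU F Om U).mul_mem hc (rt_sq_mem hStd.sq U x)) ?_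
    rw [Units.val_mul, MulMemClass.coe_mul, ← rt_spec hStd.sq U x, ← rt_spec hStd.sq U y, hct]
    ring
  rw [← rp_spec x, ← rp_spec y, vm_eq_iff]
  exact h4

theorem count_adm (hKU1 : Stmt_KU1) (hKU2 : Stmt_KU2) (hKU3 : Stmt_KU3) (hStd : Std F Om)
    (U : Subgroup (Om ≃ₐ[F] Om)) (hU : U ∈ admT (Om ≃ₐ[F] Om)) (hf : Finite (VV (KU F Om U))) :
    Nat.card {W : Subgroup (Om ≃ₐ[F] Om) // W ∈ admT (Om ≃ₐ[F] Om) ∧ W ≤ U ∧ W.relIndex U = 2} + 1
      = 2 ^ finrank (ZMod 2) (VV (KU F Om U)) := by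
  have h2 : Nat.card {W : Subgroup (Om ≃ₐ[F] Om) //
      W ∈ admT (Om ≃ₐ[F] Om) ∧ W ≤ U ∧ W.relIndex U = 2} =
      Nat.card {x : VV (KU F Om U) // x ≠ 0} := by
    refine (Nat.card_congr (Equiv.ofBijective
      (fun x : {x : VV (KU F Om U) // x ≠ 0} => (⟨kr hStd.sq U x.1,
        kr_spec hKU1 hStd U hU x.1 x.2⟩ : {W : Subgroup (Om ≃ₐ[F] Om) //
          W ∈ admT (Om ≃ₐ[F] Om) ∧ W ≤ U ∧ W.relIndex U = 2})) ⟨?_, ?_⟩)).symm
    · intro x y hxy
      exact Subtype.ext (kr_inj hKU1 hKU3 hStd U hU x.1 y.1 x.2 y.2 (congrArg Subtype.val hxy))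
    · rintro ⟨W, hW, hWU, hW2⟩
      obtain ⟨x, hx, hxW⟩ := kr_surj hKU2 hKU3 hStd U hU W hW hWU hW2
      exact ⟨⟨x, hx⟩, Subtype.ext hxW⟩
  have h4 : Nat.card {x : VV (KU F Om U) // x ≠ 0} + 1 = Nat.card (VV (KU F Om U)) := by
    classical
    have h5 : Nat.card (VV (KU F Om U)) = Nat.card (Option {x : VV (KU F Om U) // x ≠ 0}) :=
      Nat.card_congr (Equiv.optionSubtypeNe (0 : VV (KU F Om U))).symm
    rw [h5, Finite.card_option]
  rw [h2, h4, card_pw hf]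

end gal

end Pool.Agent.GTF
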