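import Pool.Agent.GTF.Kum

/-!
The norm of the next generator of a Kummer tower.
-/

set_option autoImplicit false

namespace Pool.Agent.GTF

open Module Pool.Agent.EWG Pool.Agent.ETG Pool.Agent.ETT Pool.Agent.ETT.QSY_

section coc

variable {G : Type} [Group G]

theorem lev_conj (cyc : G →* ℤ_[2]ˣ) (h4 : ∀ g, (4 : ℤ_[2]) ∣ (cyc g : ℤ_[2]) - 1)
    (U : Subgroup G) (chi : G → ℤ_[2]) (hc : IsCoc cyc U chi) (j m : ℕ) (hm : m ≤ j + 2) (g h : G)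
    (hg : g ∈ lev U chi j) (hh : h ∈ U) : g⁻¹ * h * g ∈ lev U chi m ↔ h ∈ lev U chi m := by
  obtain ⟨hgU, u, hu⟩ := hg
  obtain ⟨s, hs⟩ := h4 h
  have hkU : g⁻¹ * h * g ∈ U := U.mul_mem (U.mul_mem (U.inv_mem hgU) hh) hgU
  have e1 := hc g hgU (g⁻¹ * h * g) hkU
  have e2 := hc h hh g hgU
  have e3 : g * (g⁻¹ * h * g) = h * g := by group
  rw [e3, e2] at e1
  have e4 : (cyc g : ℤ_[2]) * chi (g⁻¹ * h * g) = chi h + 2 ^ (j + 2) * (s * u) := by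
    have : (cyc h : ℤ_[2]) = 1 + 4 * s := by linear_combination hs
    rw [this, hu] at e1
    have e5 : (2 : ℤ_[2]) ^ (j + 2) = 4 * 2 ^ j := by ring
    rw [e5]
    linear_combination (-1 : ℤ_[2]) * e1
  have e6 : (2 : ℤ_[2]) ^ m ∣ 2 ^ (j + 2) * (s * u) := Dvd.dvd.mul_right (pow_dvd_pow _ hm) _
  have e7 : (2 : ℤ_[2]) ^ m ∣ chi (g⁻¹ * h * g) ↔ (2 : ℤ_[2]) ^ m ∣ chi h := by
    rw [← Units.dvd_mul_left (u := cyc g), e4]
    exact (dvd_add_left e6)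
  constructor
  · rintro ⟨-, h5⟩
    exact ⟨hh, e7.1 h5⟩
  · rintro ⟨-, h5⟩
    exact ⟨hkU, e7.2 h5⟩

theorem lev_sq (cyc : G →* ℤ_[2]ˣ) (h4 : ∀ g, (4 : ℤ_[2]) ∣ (cyc g : ℤ_[2]) - 1)
    (U : Subgroup G) (chi : G → ℤ_[2]) (hc : IsCoc cyc U chi) (j : ℕ) (g : G)
    (hg : g ∈ lev U chi j) (hg' : g ∉ lev U chi (j + 1)) :
    g * g ∈ lev U chi (j + 1) ∧ g * g ∉ lev U chi (j + 2) := by
  obtain ⟨hgU, u, hu⟩ := hg
  obtain ⟨s, hs⟩ := h4 g
  have e1 : chi (g * g) = 2 ^ (j + 1) * (u * (1 + 2 * s)) := by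
    rw [hc g hgU g hgU, hu]
    have : (cyc g : ℤ_[2]) = 1 + 4 * s := by linear_combination hs
    rw [this]
    ring
  have hu2 : ¬ (2 : ℤ_[2]) ∣ u := by
    rintro ⟨v, rfl⟩
    apply hg'
    refine ⟨hgU, v, ?_⟩
    rw [hu]
    ring
  refine ⟨⟨U.mul_mem hgU hgU, _, e1⟩, ?_⟩
  rintro ⟨-, h5⟩
  have e8 : (2 : ℤ_[2]) ^ (j + 2) = 2 ^ (j + 1) * 2 := by ring
  rw [e1, e8, mul_dvd_mul_iff_left (pow_ne_zero _ TOT_.two_ne), TOT_.two_dvd, map_mul] at h5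
  rw [TOT_.two_dvd] at hu2
  have h6 : PadicInt.toZMod (1 + 2 * s) = 1 := by
    have h2 : (2 : ZMod 2) = 0 := rfl
    rw [map_add, map_mul, map_one, map_ofNat, h2, zero_mul, add_zero]
  rw [h6, mul_one] at h5
  exact hu2 h5

end coc

section gal

variable {F Om : Type} [Field F] [Field Om] [Algebra F Om]

/-- the inclusion of intermediate fields -/
@[reducible] noncomputable def incl {U W : Subgroup (Om ≃ₐ[F] Om)} (h : KU F Om U ≤ KU F Om W) :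
    Algebra (KU F Om U) (KU F Om W) := (IntermediateField.inclusion h).toRingHom.toAlgebra

theorem qd_incl {U W : Subgroup (Om ≃ₐ[F] Om)} [Algebra (KU F Om U) (KU F Om W)]
    (hmap : ∀ a : KU F Om U, ((algebraMap (KU F Om U) (KU F Om W) a : KU F Om W) : Om) = a)
    (t : Om) (ht : t ∉ KU F Om U) (ht2 : t ^ 2 ∈ KU F Om U)
    (hz : ∀ z : Om, z ∈ KU F Om W ↔ ∃ x ∈ KU F Om U, ∃ y ∈ KU F Om U, z = x + y * t) :
    ∃ E : QD (KU F Om U) (KU F Om W),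
      (((E.x : (KU F Om U)ˣ) : KU F Om U) : Om) = t ^ 2 := by
  have htW : t ∈ KU F Om W :=
    (hz t).2 ⟨0, (KU F Om U).zero_mem, 1, (KU F Om U).one_mem, by rw [one_mul, zero_add]⟩
  obtain ⟨E, hE⟩ := QDX_.qd_of (F := KU F Om U) (K := KU F Om W) ⟨t, htW⟩ ⟨t ^ 2, ht2⟩
    (by
      apply Subtype.ext
      rw [hmap]
      rfl)
    (by
      intro a ha
      apply ht
      have h1 := congrArg (fun y : KU F Om W => (y : Om)) ha
      simp only at h1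
      rw [hmap] at h1
      rw [← h1]
      exact a.2)
    (by
      intro z
      obtain ⟨a, ha, b, hb, h⟩ := (hz z).1 z.2
      refine ⟨⟨a, ha⟩, ⟨b, hb⟩, ?_⟩
      apply Subtype.ext
      rw [h]
      show a + b * t = ((algebraMap (KU F Om U) (KU F Om W) ⟨a, ha⟩ : KU F Om W) : Om) +
        ((algebraMap (KU F Om U) (KU F Om W) ⟨b, hb⟩ : KU F Om W) : Om) * t
      rw [hmap, hmap])
  refine ⟨E, ?_⟩
  rw [hE]

/-- the norm is `w * g w` -/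
theorem nm_val {U W : Subgroup (Om ≃ₐ[F] Om)} [Algebra (KU F Om U) (KU F Om W)]
    (hmap : ∀ a : KU F Om U, ((algebraMap (KU F Om U) (KU F Om W) a : KU F Om W) : Om) = a)
    (hfix : ∀ x ∈ KU F Om U, ∀ g ∈ U, g x = x) (t : Om)
    (E : QD (KU F Om U) (KU F Om W))
    (hE : (((E.x : (KU F Om U)ˣ) : KU F Om U) : Om) = t ^ 2) (g : Om ≃ₐ[F] Om) (hg : g ∈ U)
    (hgt : g t = -t) (w : (KU F Om W)ˣ) :
    (((E.nm w : (KU F Om U)ˣ) : KU F Om U) : Om) =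
      ((w : KU F Om W) : Om) * g ((w : KU F Om W) : Om) := by
  set θ : Om := ((E.θ : KU F Om W) : Om) with hθ
  have h1 : θ ^ 2 = t ^ 2 := by
    have h0 := congrArg (fun z : KU F Om W => (z : Om)) E.sq
    have h00 : θ ^ 2 = ((algebraMap (KU F Om U) (KU F Om W) (E.x : KU F Om U) : KU F Om W) : Om) :=
      h0
    rw [h00, hmap, hE]
  have h2 : g θ = -θ := by
    rcases sq_eq_sq_iff_eq_or_eq_neg.1 h1 with h | h
    · rw [h, hgt]
    · rw [h, map_neg, hgt]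
  have h3 : ∀ z : KU F Om W, ((E.σ z : KU F Om W) : Om) = g (z : Om) := by
    intro z
    have e1 := E.dec z
    have e2 : E.σ z = algebraMap (KU F Om U) (KU F Om W) (E.t z) +
        algebraMap (KU F Om U) (KU F Om W) (E.s z) * (-(E.θ : KU F Om W)) := by
      conv_lhs => rw [e1]
      rw [map_add, map_mul, AlgEquiv.commutes, AlgEquiv.commutes, E.σθ]
    have e3 : ((z : KU F Om W) : Om) = (E.t z : Om) + (E.s z : Om) * θ := by
      have e5 : ((z : KU F Om W) : Om) =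
          ((algebraMap (KU F Om U) (KU F Om W) (E.t z) : KU F Om W) : Om) +
          ((algebraMap (KU F Om U) (KU F Om W) (E.s z) : KU F Om W) : Om) * θ :=
        congrArg (fun z : KU F Om W => (z : Om)) e1
      rw [hmap, hmap] at e5
      exact e5
    have e4 : ((E.σ z : KU F Om W) : Om) = (E.t z : Om) + (E.s z : Om) * (-θ) := by
      have e5 : ((E.σ z : KU F Om W) : Om) =
          ((algebraMap (KU F Om U) (KU F Om W) (E.t z) : KU F Om W) : Om) +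
          ((algebraMap (KU F Om U) (KU F Om W) (E.s z) : KU F Om W) : Om) * (-θ) :=
        congrArg (fun z : KU F Om W => (z : Om)) e2
      rw [hmap, hmap] at e5
      exact e5
    rw [e4, e3, map_add, map_mul, h2, hfix _ (E.t z).2 g hg, hfix _ (E.s z).2 g hg]
  have h4 : ((algebraMap (KU F Om U) (KU F Om W) ((E.nm w : (KU F Om U)ˣ) : KU F Om U) :
      KU F Om W) : Om) = ((w : KU F Om W) : Om) * ((E.σ (w : KU F Om W) : KU F Om W) : Om) :=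
    congrArg (fun z : KU F Om W => (z : Om)) (E.nmσ w)
  rw [hmap, h3] at h4
  exact h4

/-- the next generator of the Kummer tower has norm `x_j` modulo squares -/
theorem norm_next (hGFX : Stmt_GFX) (hKU3 : Stmt_KU3) (hStd : Std F Om)
    (cyc : (Om ≃ₐ[F] Om) →* ℤ_[2]ˣ) (h4 : ∀ g, (4 : ℤ_[2]) ∣ (cyc g : ℤ_[2]) - 1)
    (U : Subgroup (Om ≃ₐ[F] Om)) (chi : (Om ≃ₐ[F] Om) → ℤ_[2]) (hc : IsCoc cyc U chi) (j : ℕ)
    (W0 W1 W2 : Subgroup (Om ≃ₐ[F] Om)) (a0 : W0 ∈ admT (Om ≃ₐ[F] Om))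
    (a1 : W1 ∈ admT (Om ≃ₐ[F] Om)) (a2 : W2 ∈ admT (Om ≃ₐ[F] Om))
    (l0 : (W0 : Set (Om ≃ₐ[F] Om)) = lev U chi j)
    (l1 : (W1 : Set (Om ≃ₐ[F] Om)) = lev U chi (j + 1))
    (l2 : (W2 : Set (Om ≃ₐ[F] Om)) = lev U chi (j + 2))
    (i1 : W1 ≤ W0) (r1 : W1.relIndex W0 = 2) (i2 : W2 ≤ W1) (r2 : W2.relIndex W1 = 2)
    (t τ : Om) (ht : t ∉ KU F Om W0) (ht2 : t ^ 2 ∈ KU F Om W0)
    (hW1 : (W1 : Set (Om ≃ₐ[F] Om)) = {g | g ∈ W0 ∧ g t = t})
    (hτ : τ ∉ KU F Om W1) (hτ2 : τ ^ 2 ∈ KU F Om W1)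
    (hW2 : (W2 : Set (Om ≃ₐ[F] Om)) = {g | g ∈ W1 ∧ g τ = τ})
    [Algebra (KU F Om W0) (KU F Om W1)]
    (hmap : ∀ a : KU F Om W0, ((algebraMap (KU F Om W0) (KU F Om W1) a : KU F Om W1) : Om) = a)
    (E0 : QD (KU F Om W0) (KU F Om W1))
    (hE0 : (((E0.x : (KU F Om W0)ˣ) : KU F Om W0) : Om) = t ^ 2)
    (x1 : (KU F Om W1)ˣ) (hx1 : ((x1 : KU F Om W1) : Om) = τ ^ 2) :
    vm (E0.nm x1) = vm E0.x := by
  obtain ⟨-, g2, -, -⟩ := hGFX F Om hStd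
  obtain ⟨⟨g, hg, hgt⟩, hpm, hz, -⟩ := hKU3 F Om hStd W0 a0 W1 a1 i1 r1 t ht ht2 hW1
  obtain ⟨-, hpm', -, -⟩ := hKU3 F Om hStd W1 a1 W2 a2 i2 r2 τ hτ hτ2 hW2
  have m1 : ∀ h, h ∈ W1 ↔ h ∈ W0 ∧ h t = t := by
    intro h; rw [← SetLike.mem_coe, hW1]; rfl
  have m2 : ∀ h, h ∈ W2 ↔ h ∈ W1 ∧ h τ = τ := by
    intro h; rw [← SetLike.mem_coe, hW2]; rfl
  have n0 : ∀ h, h ∈ W0 ↔ h ∈ lev U chi j := by
    intro h; rw [← SetLike.mem_coe, l0]
  have n1 : ∀ h, h ∈ W1 ↔ h ∈ lev U chi (j + 1) := by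
    intro h; rw [← SetLike.mem_coe, l1]
  have n2 : ∀ h, h ∈ W2 ↔ h ∈ lev U chi (j + 2) := by
    intro h; rw [← SetLike.mem_coe, l2]
  have htt : t ≠ 0 := by
    rintro rfl
    exact ht (KU F Om W0).zero_mem
  have h2F : (2 : Om) ≠ 0 := by
    have := (map_ne_zero (algebraMap F Om)).2 hStd.two
    rwa [map_ofNat] at this
  have hg1 : g ∉ W1 := by
    intro h
    have h1 := ((m1 g).1 h).2
    rw [hgt] at h1
    have h3 : (2 : Om) * t = 0 := by linear_combination (-1 : Om) * h1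
    rcases mul_eq_zero.1 h3 with h | h
    · exact h2F h
    · exact htt h
  have hmul : ∀ (a b : Om ≃ₐ[F] Om) (z : Om), (a * b) z = a (b z) := fun _ _ _ => rfl
  obtain ⟨q1, q2⟩ := lev_sq cyc h4 U chi hc j g ((n0 g).1 hg) (fun h => hg1 ((n1 g).2 h))
  have q1' : g * g ∈ W1 := (n1 _).2 q1
  have q3 : (g * g) τ = -τ := by
    rcases hpm' (g * g) q1' with h | h
    · exact absurd ((n2 _).1 ((m2 _).2 ⟨q1', h⟩)) q2
    · exact h
  -- conjugation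
  have hcj : ∀ h ∈ W1, h (g τ) * h τ = g τ * τ := by
    intro h hh
    have hhU : h ∈ U := ((n1 h).1 hh).1
    have k1 : g⁻¹ * h * g ∈ W1 :=
      (n1 _).2 ((lev_conj cyc h4 U chi hc j (j + 1) (by omega) g h ((n0 g).1 hg) hhU).2
        ((n1 h).1 hh))
    have k2 : g⁻¹ * h * g ∈ W2 ↔ h ∈ W2 := by
      rw [n2, n2]
      exact lev_conj cyc h4 U chi hc j (j + 2) le_rfl g h ((n0 g).1 hg) hhU
    have k3 : h (g τ) = g ((g⁻¹ * h * g) τ) := by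
      rw [← hmul h g, ← hmul g]
      have : g * (g⁻¹ * h * g) = h * g := by group
      rw [this]
    rw [k3]
    rcases hpm' h hh with e | e
    · have k4 : (g⁻¹ * h * g) τ = τ := ((m2 _).1 (k2.2 ((m2 h).2 ⟨hh, e⟩))).2
      rw [k4, e]
    · rcases hpm' _ k1 with k5 | k5
      · have k6 : h ∈ W2 := k2.1 ((m2 _).2 ⟨k1, k5⟩)
        rw [((m2 h).1 k6).2, k5]
      · rw [k5, e, map_neg]
        ring
  -- the element s
  have hs1 : ∀ h ∈ W1, h (τ * g τ * t) = τ * g τ * t := by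
    intro h hh
    have e1 := hcj h hh
    have e2 := ((m1 h).1 hh).2
    rw [map_mul, map_mul, e2]
    linear_combination t * e1
  have hsg : g (τ * g τ * t) = τ * g τ * t := by
    rw [map_mul, map_mul, hgt, ← hmul g g, q3]
    ring
  have hsK : τ * g τ * t ∈ KU F Om W0 := by
    rw [g2]
    intro h hh
    rcases hpm h hh with e | e
    · exact hs1 h ((m1 h).2 ⟨hh, e⟩)
    · have e1 : (g⁻¹ * h) t = t := by
        have e2 : g⁻¹ (g t) = t := by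
          rw [← hmul, inv_mul_cancel]; rfl
        rw [hgt, map_neg] at e2
        rw [hmul, e, map_neg, e2]
      have e3 : g⁻¹ * h ∈ W1 := (m1 _).2 ⟨W0.mul_mem (W0.inv_mem hg) hh, e1⟩
      have e4 : h = g * (g⁻¹ * h) := by group
      rw [e4, hmul, hs1 _ e3, hsg]
  rw [vm_eq_iff]
  refine isSq_of _ (τ * g τ * t) hsK ?_
  have hfix : ∀ x ∈ KU F Om W0, ∀ g ∈ W0, g x = x := fun x hx g hg => (g2 W0 x).1 hx g hg
  rw [Units.val_mul, MulMemClass.coe_mul, nm_val hmap hfix t E0 hE0 g hg hgt x1, hE0, hx1, map_pow]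
  ring

end gal

end Pool.Agent.GTF
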