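import Pool.Agent.GTF.Defs
import Pool.Agent.EWG.Stmts

/-!
`Stmt_TOW` from the generic tower (`Stmt_FTOW`) and the decomposition at one level (`Stmt_TLV`).
-/

set_option autoImplicit false

namespace Pool.Agent.GTF

open Pool.Agent.EWG Pool.Agent.ETG

open scoped BigOperators

theorem pf_sq {K : Type} [Field K] (hREL : Stmt_REL) (hK : Good K) {a : Kˣ} (b : Kˣ)
    (h : IsSquare a) : pf a b = 0 := by
  have h1 : br a = br (1 : Kˣ) := ((hREL K hK).1 a 1).2 (by rwa [mul_one])
  unfold pf pf1
  rw [h1, br_one, add_self', zero_mul]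

theorem zf_zero {K : Type} [Field K] (hREL : Stmt_REL) (hK : Good K) (w : VV K) : Zf K 0 w := by
  intro a b ha _
  exact pf_sq hREL hK b ((vm_eq_zero a).1 ha)

/-- no square classes: the empty decomposition -/
theorem os_triv (hREL : Stmt_REL) (F : Type) [Field F] (hF : Good F) (h : ∀ v : VV F, v = 0) :
    ∃ (k : ℕ) (C : ZDec (Zf F) k), C.OS := by
  have hz : ∀ v w : VV F, Zf F v w := by
    intro v w
    rw [h v]
    exact zf_zero hREL hF w
  exact ⟨0, {
    p := fun j => j.elim0
    idem := fun j => j.elim0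
    orth := fun j => j.elim0
    perp := fun j => j.elim0
    rad := fun v w => hz _ _
    ind := fun _ _ _ j => j.elim0
    nd := fun j => j.elim0
    ne := fun j => j.elim0 }, fun j => j.elim0⟩

theorem tow_of (hREL : Stmt_REL) (h1 : Stmt_FTOW) (h2 : Stmt_TLV) : Stmt_TOW := by
  intro P hd hos F _ hG hV
  by_cases hx : ∃ v : VV F, v ≠ 0
  · obtain ⟨T⟩ := h1 F hG hV hx
    obtain ⟨n, k, C, hC⟩ := h2 F T
    have hn : P (T.K n) := hos (T.K n) (T.good n) (T.fin n) ⟨k, C, hC⟩
    have h0 : ∀ m, P (T.K m) → P (T.K 0) := by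
      intro m
      induction m with
      | zero => exact id
      | succ m ih =>
        intro hm
        exact ih (hd (T.K m) (T.K (m + 1)) (T.good m) (T.fin m) (T.E m) hm)
    exact T.desc P hd (h0 n hn)
  · push Not at hx
    exact hos F hG hV (os_triv hREL F hG hx)

end Pool.Agent.GTF
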